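import Pool.Agent.Y444.RP.Stm

/-! Project RP: the Sorgenfrey line has a base of subinfinite rank. -/

set_option autoImplicit false

namespace Pool.Agent.Y47.RP.SUB

open Set TopologicalSpace
open Pool.Agent.Y444.RP

theorem aux1 {x a0 b0 : ℝ} (h : x ∈ Ico a0 b0) : ∃ (k : ℕ) (j : ℤ),
    ((j : ℝ) - 1) / 2 ^ k ≤ x ∧ x < (j : ℝ) / 2 ^ k ∧ (j : ℝ) / 2 ^ k ≤ b0 := by
  obtain ⟨k, hk⟩ := exists_pow_lt_of_lt_one (sub_pos.2 h.2) (by norm_num : (1 / 2 : ℝ) < 1)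
  have h2 : (0 : ℝ) < 2 ^ k := by positivity
  have hk' : 1 < (b0 - x) * 2 ^ k := by
    rw [one_div, inv_pow, inv_lt_iff_one_lt_mul₀ h2] at hk
    exact hk
  refine ⟨k, ⌊x * 2 ^ k⌋ + 1, ?_, ?_, ?_⟩
  · rw [div_le_iff₀ h2]
    push_cast
    have := Int.floor_le (x * 2 ^ k)
    linarith
  · rw [lt_div_iff₀ h2]
    push_cast
    exact Int.lt_floor_add_one _
  · rw [div_le_iff₀ h2]
    push_cast
    have := Int.floor_le (x * 2 ^ k)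
    nlinarith

theorem aux2 {x a : ℝ} {k : ℕ} {j : ℤ} (h1 : ((j : ℝ) - 1) / 2 ^ k ≤ a) (h2 : a ≤ x)
    (h3 : x < (j : ℝ) / 2 ^ k) : j = ⌊x * 2 ^ k⌋ + 1 := by
  have h0 : (0 : ℝ) < 2 ^ k := by positivity
  rw [div_le_iff₀ h0] at h1
  rw [lt_div_iff₀ h0] at h3
  have h4 : a * 2 ^ k ≤ x * 2 ^ k := mul_le_mul_of_nonneg_right h2 h0.le
  have h5 : ⌊x * 2 ^ k⌋ = j - 1 := by
    rw [Int.floor_eq_iff]
    push_cast
    constructor <;> linarith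
  omega

/-- the base -/
def Bs : Set (Set Sorg) := {s : Set Sorg | ∃ (k : ℕ) (j : ℤ) (a : ℝ), ((j : ℝ) - 1) / 2 ^ k ≤ a ∧
  a < (j : ℝ) / 2 ^ k ∧ s = (Ico a ((j : ℝ) / 2 ^ k) : Set ℝ)}

theorem basis (hB : BasisStm) : IsTopologicalBasis Bs := by
  refine isTopologicalBasis_of_isOpen_of_nhds ?_ ?_
  · rintro s ⟨k, j, a, -, -, rfl⟩
    exact hB.isOpen ⟨a, _, rfl⟩
  · intro x u hx hu
    obtain ⟨v, ⟨a0, b0, rfl⟩, hxv, hvu⟩ := hB.exists_subset_of_mem_open hx hu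
    let y : ℝ := x
    have hxv' : y ∈ (Ico a0 b0 : Set ℝ) := hxv
    obtain ⟨k, j, h1, h2, h3⟩ := aux1 hxv'
    let s : Set ℝ := Ico y ((j : ℝ) / 2 ^ k)
    have hs : y ∈ s := ⟨le_refl y, h2⟩
    have hs2 : s ⊆ Ico a0 b0 := Ico_subset_Ico hxv'.1 h3
    exact ⟨s, ⟨k, j, y, h1, h2, rfl⟩, hs, fun z hz => hvu (hs2 hz)⟩

/-- the real form of the statement on the rank -/
theorem rank_real {A : Set (Set ℝ)} (hA : ∀ U ∈ A, ∃ (k : ℕ) (j : ℤ) (a : ℝ),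
    ((j : ℝ) - 1) / 2 ^ k ≤ a ∧ a < (j : ℝ) / 2 ^ k ∧ U = Ico a ((j : ℝ) / 2 ^ k))
    (hI : ∀ U ∈ A, ∀ V ∈ A, U ⊆ V → U = V) {x : ℝ} (hx : ∀ U ∈ A, x ∈ U) : A.Finite := by
  classical
  by_contra hinf
  have hinf' : A.Infinite := hinf
  have h1 : ∀ U ∈ A, ∃ (k : ℕ) (a : ℝ), (⌊x * 2 ^ k⌋ : ℝ) / 2 ^ k ≤ a ∧ a ≤ x ∧
      U = Ico a (((⌊x * 2 ^ k⌋ : ℝ) + 1) / 2 ^ k) := by
    intro U hU
    obtain ⟨k, j, a, b1, b2, rfl⟩ := hA U hU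
    have hxU := hx _ hU
    have hj := aux2 b1 hxU.1 hxU.2
    subst hj
    push_cast at b1 hxU ⊢
    refine ⟨k, a, ?_, hxU.1, rfl⟩
    rwa [add_sub_cancel_right] at b1
  choose! κ a h2 h3 h4 using h1
  have cmp : ∀ U ∈ A, ∀ V ∈ A, a U = a V → U = V := by
    intro U hU V hV e
    rcases le_total (((⌊x * 2 ^ κ U⌋ : ℝ) + 1) / 2 ^ κ U) (((⌊x * 2 ^ κ V⌋ : ℝ) + 1) / 2 ^ κ V)
      with h | h
    · refine hI U hU V hV ?_
      rw [h4 U hU, h4 V hV, e]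
      exact Ico_subset_Ico_right h
    · refine (hI V hV U hU ?_).symm
      rw [h4 U hU, h4 V hV, e]
      exact Ico_subset_Ico_right h
  have inj : Set.InjOn κ A := by
    intro U hU V hV e
    rcases le_total (a U) (a V) with h | h
    · refine (hI V hV U hU ?_).symm
      rw [h4 U hU, h4 V hV, e]
      exact Ico_subset_Ico_left h
    · refine hI U hU V hV ?_
      rw [h4 U hU, h4 V hV, e]
      exact Ico_subset_Ico_left h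
  have unb : ∀ K : ℕ, ∃ U ∈ A, K < κ U := by
    intro K
    obtain ⟨n, ⟨U, hU, rfl⟩, hn⟩ := (hinf'.image inj).exists_gt K
    exact ⟨U, hU, hn⟩
  obtain ⟨U0, hU0, hlt⟩ : ∃ U ∈ A, a U < x := by
    obtain ⟨U1, hU1, U2, hU2, hne⟩ := hinf'.nontrivial
    by_contra hcon
    push Not at hcon
    exact hne (cmp U1 hU1 U2 hU2 ((le_antisymm (h3 U1 hU1) (hcon U1 hU1)).trans
      (le_antisymm (h3 U2 hU2) (hcon U2 hU2)).symm))
  have hx0 := hx U0 hU0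
  rw [h4 U0 hU0] at hx0
  set b0 := ((⌊x * 2 ^ κ U0⌋ : ℝ) + 1) / 2 ^ κ U0 with hb0
  have hpos : 0 < min (x - a U0) (b0 - x) := lt_min (sub_pos.2 hlt) (sub_pos.2 hx0.2)
  obtain ⟨K, hK⟩ := exists_pow_lt_of_lt_one hpos (by norm_num : (1 / 2 : ℝ) < 1)
  obtain ⟨U, hU, hKU⟩ := unb K
  have hp : (0 : ℝ) < 2 ^ κ U := by positivity
  have e1 : (1 : ℝ) / 2 ^ κ U < min (x - a U0) (b0 - x) := by
    refine lt_of_le_of_lt ?_ hK
    have h8 : (1 / 2 : ℝ) ^ κ U ≤ (1 / 2) ^ K :=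
      pow_le_pow_of_le_one (by norm_num) (by norm_num) hKU.le
    have h9 : (1 / 2 : ℝ) ^ κ U = 1 / 2 ^ κ U := by rw [div_pow, one_pow]
    rw [← h9]
    exact h8
  have e2 := lt_of_lt_of_le e1 (min_le_left _ _)
  have e3 := lt_of_lt_of_le e1 (min_le_right _ _)
  have e4 : x < (⌊x * 2 ^ κ U⌋ : ℝ) / 2 ^ κ U + 1 / 2 ^ κ U := by
    rw [← add_div, lt_div_iff₀ hp]
    exact Int.lt_floor_add_one _
  have e5 : ((⌊x * 2 ^ κ U⌋ : ℝ) + 1) / 2 ^ κ U = (⌊x * 2 ^ κ U⌋ : ℝ) / 2 ^ κ U + 1 / 2 ^ κ U :=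
    add_div _ _ _
  have e6 := h2 U hU
  have e7 := h3 U hU
  have e8 : a U0 < a U := by linarith
  have sub : U ⊆ U0 := by
    rw [h4 U hU, h4 U0 hU0]
    refine Ico_subset_Ico e8.le ?_
    rw [← hb0, e5]
    linarith
  have eq := hI U hU U0 hU0 sub
  rw [eq] at e8
  exact lt_irrefl _ e8

theorem t : BasisStm → SubinfStm := by
  intro hB
  refine ⟨Bs, basis hB, ?_⟩
  rintro A hA hI ⟨x, hx⟩
  exact rank_real (A := A) (fun U hU => hA hU) hI (x := x) (fun U hU => hx U hU)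

end Pool.Agent.Y47.RP.SUB
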